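import Mathlib

set_option autoImplicit false
open Set Filter

namespace Pool.Agent.R361.Logi

section mono

variable {X : Type*} [LinearOrder X]

/-- all iterates `G^[k]`, `k < n`, are monotone or antitone on `S` -/
def Mon (G : X → X) (n : ℕ) (S : Set X) : Prop :=
  ∀ k < n, MonotoneOn (G^[k]) S ∨ AntitoneOn (G^[k]) S

/-- `S` is covered by at most `m` sets on which all `G^[k]`, `k < n`, are monotone/antitone -/
def Cov (G : X → X) (n : ℕ) (S : Set X) (m : ℕ) : Prop :=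
  ∃ t : Finset (Set X), t.card ≤ m ∧ S ⊆ ⋃₀ (t : Set (Set X)) ∧ ∀ P ∈ t, Mon G n P

lemma Mon.succ {G : X → X} {n : ℕ} {S : Set X} (h1 : MonotoneOn G S ∨ AntitoneOn G S)
    (h2 : Mon G n (G '' S)) : Mon G (n + 1) S := by
  intro k hk
  rcases k with _ | k
  · left; exact fun x _ y _ h => h
  · have h3 := h2 k (by omega)
    rw [Function.iterate_succ]
    have hm := mapsTo_image G S
    rcases h1 with h1 | h1 <;> rcases h3 with h3 | h3
    · left; exact fun x hx y hy hxy => h3 (hm hx) (hm hy) (h1 hx hy hxy)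
    · right; exact fun x hx y hy hxy => h3 (hm hx) (hm hy) (h1 hx hy hxy)
    · right; exact fun x hx y hy hxy => h3 (hm hy) (hm hx) (h1 hx hy hxy)
    · left; exact fun x hx y hy hxy => h3 (hm hy) (hm hx) (h1 hx hy hxy)

lemma Mon.mono {G : X → X} {n : ℕ} {S S' : Set X} (h : Mon G n S) (hs : S' ⊆ S) : Mon G n S' := by
  intro k hk
  rcases h k hk with h | h
  · exact Or.inl (h.mono hs)
  · exact Or.inr (h.mono hs)

lemma Cov.single {G : X → X} {n : ℕ} {S : Set X} (h : Mon G n S) : Cov G n S 1 :=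
  ⟨{S}, by simp, by simp, by simpa using h⟩

lemma Cov.mono {G : X → X} {n : ℕ} {S S' : Set X} {m : ℕ} (h : Cov G n S m) (hs : S' ⊆ S) :
    Cov G n S' m := by
  obtain ⟨t, h1, h2, h3⟩ := h
  exact ⟨t, h1, hs.trans h2, h3⟩

lemma Cov.union {G : X → X} {n : ℕ} {S S' : Set X} {m m' : ℕ} (h : Cov G n S m)
    (h' : Cov G n S' m') : Cov G n (S ∪ S') (m + m') := by
  classical
  obtain ⟨t, h1, h2, h3⟩ := h
  obtain ⟨t', h1', h2', h3'⟩ := h'
  refine ⟨t ∪ t', (Finset.card_union_le _ _).trans (by omega), ?_, ?_⟩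
  · rw [Finset.coe_union, sUnion_union]
    exact union_subset_union h2 h2'
  · intro P hP
    rcases Finset.mem_union.1 hP with hP | hP
    · exact h3 P hP
    · exact h3' P hP

lemma Cov.pull {G : X → X} {n : ℕ} {S E : Set X} {m : ℕ} (h1 : MonotoneOn G S ∨ AntitoneOn G S)
    (hE : MapsTo G S E) (h : Cov G n E m) : Cov G (n + 1) S m := by
  classical
  obtain ⟨t, ht1, ht2, ht3⟩ := h
  refine ⟨t.image (fun P => S ∩ G ⁻¹' P), Finset.card_image_le.trans ht1, ?_, ?_⟩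
  · intro x hx
    obtain ⟨P, hP, hxP⟩ := ht2 (hE hx)
    exact ⟨S ∩ G ⁻¹' P, by simpa using ⟨P, hP, rfl⟩, hx, hxP⟩
  · intro Q hQ
    obtain ⟨P, hP, rfl⟩ := Finset.mem_image.1 hQ
    refine Mon.succ ?_ ?_
    · rcases h1 with h1 | h1
      · exact Or.inl (h1.mono inter_subset_left)
      · exact Or.inr (h1.mono inter_subset_left)
    · refine (ht3 P hP).mono ?_
      rintro _ ⟨x, ⟨_, hx⟩, rfl⟩
      exact hx

/-- Counting lemma: a set on which finitely many functions with values in `{0,…,M}` are each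
monotone or antitone splits into at most `n M + 1` pieces on which all are constant. -/
lemma split_pieces (n M : ℕ) (P : Set X) (g : ℕ → X → ℕ) (hM : ∀ k < n, ∀ x ∈ P, g k x ≤ M)
    (hg : ∀ k < n, MonotoneOn (g k) P ∨ AntitoneOn (g k) P) :
    ∃ t : Finset (Set X), t.card ≤ n * M + 1 ∧ P ⊆ ⋃₀ (t : Set (Set X)) ∧
      ∀ Q ∈ t, Q ⊆ P ∧ ∀ k < n, ∀ x ∈ Q, ∀ y ∈ Q, g k x = g k y := by
  classical
  -- monotone versions
  let f : ℕ → X → ℕ := fun k x => if MonotoneOn (g k) P then g k x else M - g k x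
  have hfm : ∀ k < n, MonotoneOn (f k) P := by
    intro k hk x hx y hy hxy
    by_cases h : MonotoneOn (g k) P
    · simp only [f, h, if_true]
      exact h hx hy hxy
    · have h' : AntitoneOn (g k) P := (hg k hk).resolve_left h
      simp only [f, h, if_false]
      have := h' hx hy hxy
      omega
  have hfM : ∀ k < n, ∀ x ∈ P, f k x ≤ M := by
    intro k hk x hx
    have := hM k hk x hx
    simp only [f]
    split_ifs <;> omega
  have hfg : ∀ k < n, ∀ x ∈ P, ∀ y ∈ P, f k x = f k y → g k x = g k y := by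
    intro k hk x hx y hy h
    have h1 := hM k hk x hx
    have h2 := hM k hk y hy
    by_cases hm : MonotoneOn (g k) P
    · simp only [f, hm, if_true] at h
      exact h
    · simp only [f, hm, if_false] at h
      omega
  let F : X → ℕ := fun x => ∑ k ∈ Finset.range n, f k x
  have hF : ∀ x ∈ P, F x ≤ n * M := by
    intro x hx
    calc F x ≤ ∑ k ∈ Finset.range n, M := Finset.sum_le_sum fun k hk => hfM k (Finset.mem_range.1 hk) x hx
      _ = n * M := by simp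
  refine ⟨(Finset.range (n * M + 1)).image (fun i => P ∩ F ⁻¹' {i}),
    Finset.card_image_le.trans (by simp), ?_, ?_⟩
  · intro x hx
    refine ⟨P ∩ F ⁻¹' {F x}, ?_, hx, rfl⟩
    simp only [Finset.coe_image, mem_image, Finset.coe_range, mem_Iio]
    exact ⟨F x, by have := hF x hx; omega, rfl⟩
  · intro Q hQ
    obtain ⟨i, hi, rfl⟩ := Finset.mem_image.1 hQ
    refine ⟨inter_subset_left, ?_⟩
    have key : ∀ x ∈ P, ∀ y ∈ P, x ≤ y → F x = F y → ∀ k < n, f k x = f k y := by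
      intro x hx y hy hxy hF k hk
      have h1 : ∀ k ∈ Finset.range n, f k x ≤ f k y := fun k hk =>
        hfm k (Finset.mem_range.1 hk) hx hy hxy
      exact (Finset.sum_eq_sum_iff_of_le h1).1 hF k (Finset.mem_range.2 hk)
    intro k hk x hx y hy
    have hFxy : F x = F y := by
      have h1 : F x = i := hx.2
      have h2 : F y = i := hy.2
      rw [h1, h2]
    apply hfg k hk x hx.1 y hy.1
    rcases le_total x y with h | h
    · exact key x hx.1 y hy.1 h hFxy k hk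
    · exact (key y hy.1 x hx.1 h hFxy.symm k hk).symm

end mono

/-! ### the maps -/

/-- The logistic map `f_a(x) = a x (1 - x)` of `[0,1]`, `a ∈ [1,4]`. -/
noncomputable def logistic (a : Icc (1 : ℝ) 4) : Icc (0 : ℝ) 1 → Icc (0 : ℝ) 1 :=
  fun x => ⟨a * x * (1 - x), by
    obtain ⟨a, ha⟩ := a
    obtain ⟨x, hx⟩ := x
    have h1 := ha.1
    have h2 := ha.2
    have h3 := hx.1
    have h4 := hx.2
    refine ⟨by have : (0:ℝ) ≤ 1 - x := by linarith
               positivity, ?_⟩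
    nlinarith [mul_nonneg h3 (sub_nonneg.2 h4), sq_nonneg (1 - 2 * x)]⟩

@[simp] lemma logistic_coe (a : Icc (1 : ℝ) 4) (x : Icc (0 : ℝ) 1) :
    ((logistic a x : Icc (0 : ℝ) 1) : ℝ) = a * x * (1 - x) := rfl

lemma continuous_logistic (a : Icc (1 : ℝ) 4) : Continuous (logistic a) := by
  unfold logistic
  fun_prop

/-- the parameters 4, 1, 3 -/
def p4 : Icc (1 : ℝ) 4 := ⟨4, by norm_num⟩
def p1 : Icc (1 : ℝ) 4 := ⟨1, by norm_num⟩
def p3 : Icc (1 : ℝ) 4 := ⟨3, by norm_num⟩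

noncomputable def GG : Icc (0 : ℝ) 1 → Icc (0 : ℝ) 1 := logistic p4 ∘ logistic p1 ∘ logistic p3
noncomputable def HH : Icc (0 : ℝ) 1 → Icc (0 : ℝ) 1 := logistic p4 ∘ logistic p3 ∘ logistic p1

lemma GG_coe (x : Icc (0 : ℝ) 1) : ((GG x : Icc (0 : ℝ) 1) : ℝ) =
    4 * ((3 * x * (1 - x)) * (1 - 3 * x * (1 - x))) * (1 - (3 * x * (1 - x)) * (1 - 3 * x * (1 - x))) := by
  simp [GG, p4, p1, p3]

lemma HH_coe (x : Icc (0 : ℝ) 1) : ((HH x : Icc (0 : ℝ) 1) : ℝ) =
    4 * (3 * (x * (1 - x)) * (1 - x * (1 - x))) * (1 - 3 * (x * (1 - x)) * (1 - x * (1 - x))) := by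
  simp [HH, p4, p1, p3]

/-- `f_4 ∘ f_1` as a function of a real -/
noncomputable def q (u : ℝ) : ℝ := 4 * (u * (1 - u)) * (1 - u * (1 - u))

lemma GG_q (x : Icc (0 : ℝ) 1) : ((GG x : Icc (0 : ℝ) 1) : ℝ) = q (3 * x * (1 - x)) := by
  rw [GG_coe, q]

lemma q_mono {u v : ℝ} (hu : 0 ≤ u) (huv : u ≤ v) (hv : v ≤ 1 / 2) : q u ≤ q v := by
  unfold q
  have h1 : u * (1 - u) ≤ v * (1 - v) := by nlinarith
  have h2 : 0 ≤ u * (1 - u) := mul_nonneg hu (by linarith)
  have h3 : v * (1 - v) ≤ 1 / 4 := by nlinarith [sq_nonneg (1 - 2 * v)]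
  nlinarith

lemma q_anti {u v : ℝ} (hu : 1 / 2 ≤ u) (huv : u ≤ v) (hv : v ≤ 1) : q v ≤ q u := by
  have h := q_mono (u := 1 - v) (v := 1 - u) (by linarith) (by linarith) (by linarith)
  have e : ∀ w, q (1 - w) = q w := by intro w; unfold q; ring
  rwa [e, e] at h

lemma q_le {u : ℝ} (h0 : 0 ≤ u) (h1 : u ≤ 1) : q u ≤ 3 / 4 := by
  unfold q
  have h2 : 0 ≤ u * (1 - u) := mul_nonneg h0 (by linarith)
  have h3 : u * (1 - u) ≤ 1 / 4 := by nlinarith [sq_nonneg (1 - 2 * u)]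
  nlinarith

lemma q_ge {u : ℝ} (h0 : 1 / 2 ≤ u) (h1 : u ≤ 3 / 4) : 1 / 2 ≤ q u := by
  unfold q
  have h2 : 3 / 16 ≤ u * (1 - u) := by nlinarith
  have h3 : u * (1 - u) ≤ 1 / 4 := by nlinarith [sq_nonneg (1 - 2 * u)]
  nlinarith

def SA : Set (Icc (0 : ℝ) 1) := {x | (x : ℝ) ≤ 1 / 2 ∧ 3 * (x : ℝ) * (1 - x) ≤ 1 / 2}
def SB : Set (Icc (0 : ℝ) 1) := {x | (x : ℝ) ≤ 1 / 2 ∧ 1 / 2 ≤ 3 * (x : ℝ) * (1 - x)}
def SC : Set (Icc (0 : ℝ) 1) := {x | 1 / 2 ≤ (x : ℝ) ∧ 1 / 2 ≤ 3 * (x : ℝ) * (1 - x)}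
def SD : Set (Icc (0 : ℝ) 1) := {x | 1 / 2 ≤ (x : ℝ) ∧ 3 * (x : ℝ) * (1 - x) ≤ 1 / 2}
def SE : Set (Icc (0 : ℝ) 1) := {x | (x : ℝ) ≤ 3 / 4}

lemma f3_bd (x : Icc (0 : ℝ) 1) : 0 ≤ 3 * (x : ℝ) * (1 - x) ∧ 3 * (x : ℝ) * (1 - x) ≤ 3 / 4 := by
  have h1 := x.2.1
  have h2 := x.2.2
  constructor
  · have : (0:ℝ) ≤ 1 - x := by linarith
    positivity
  · nlinarith [sq_nonneg (1 - 2 * (x : ℝ))]

lemma mapsE (S : Set (Icc (0 : ℝ) 1)) : MapsTo GG S SE := by
  intro x _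
  have := f3_bd x
  change ((GG x : Icc (0 : ℝ) 1) : ℝ) ≤ 3 / 4
  rw [GG_q]
  exact q_le this.1 (by linarith)

lemma mono_A : MonotoneOn GG SA := by
  intro x hx y hy hxy
  have hxy' : (x : ℝ) ≤ y := hxy
  have h1 := f3_bd x
  have hx1 := hx.1
  have hy1 := hy.1
  rw [← Subtype.coe_le_coe, GG_q, GG_q]
  exact q_mono h1.1 (by nlinarith) hy.2

lemma anti_D : AntitoneOn GG SD := by
  intro x hx y hy hxy
  have hxy' : (x : ℝ) ≤ y := hxy
  have h1 := f3_bd y
  have hx1 := hx.1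
  have hy1 := hy.1
  rw [← Subtype.coe_le_coe, GG_q, GG_q]
  exact q_mono h1.1 (by nlinarith) hx.2

lemma anti_B : AntitoneOn GG SB := by
  intro x hx y hy hxy
  have hxy' : (x : ℝ) ≤ y := hxy
  have h1 := f3_bd y
  have hx1 := hx.1
  have hy1 := hy.1
  rw [← Subtype.coe_le_coe, GG_q, GG_q]
  exact q_anti hx.2 (by nlinarith) (by linarith)

lemma mono_C : MonotoneOn GG SC := by
  intro x hx y hy hxy
  have hxy' : (x : ℝ) ≤ y := hxy
  have h1 := f3_bd x
  have hx1 := hx.1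
  have hy1 := hy.1
  rw [← Subtype.coe_le_coe, GG_q, GG_q]
  exact q_anti hy.2 (by nlinarith) (by linarith)

lemma maps_C {S : Set (Icc (0 : ℝ) 1)} (hS : ∀ x ∈ S, 1 / 2 ≤ 3 * (x : ℝ) * (1 - x)) :
    MapsTo GG S SC := by
  intro x hx
  have h1 := f3_bd x
  have h2 := q_ge (hS x hx) h1.2
  have h3 := q_le h1.1 (by linarith)
  rw [← GG_q] at h2 h3
  refine ⟨h2, ?_⟩
  nlinarith

lemma Mon_C (n : ℕ) : Mon GG n SC := by
  induction n with
  | zero => intro k hk; omega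
  | succ n ih =>
    refine Mon.succ (Or.inl mono_C) (ih.mono ?_)
    rintro _ ⟨x, hx, rfl⟩
    exact maps_C (fun x hx => hx.2) hx

lemma Mon_B (n : ℕ) : Mon GG n SB := by
  cases n with
  | zero => intro k hk; omega
  | succ n =>
    refine Mon.succ (Or.inr anti_B) ((Mon_C n).mono ?_)
    rintro _ ⟨x, hx, rfl⟩
    exact maps_C (fun x hx => hx.2) hx

lemma SE_sub : SE ⊆ SA ∪ SB ∪ SC := by
  intro x hx
  have hx' : (x : ℝ) ≤ 3 / 4 := hx
  rcases le_total (x : ℝ) (1 / 2) with h | h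
  · rcases le_total (3 * (x : ℝ) * (1 - x)) (1 / 2) with h' | h'
    · exact Or.inl (Or.inl ⟨h, h'⟩)
    · exact Or.inl (Or.inr ⟨h, h'⟩)
  · refine Or.inr ⟨h, by nlinarith⟩

lemma Cov_E (n : ℕ) : Cov GG n SE (2 * n + 1) := by
  induction n with
  | zero => exact Cov.single (fun k hk => by omega)
  | succ n ih =>
    have h1 : Cov GG (n + 1) SA (2 * n + 1) := Cov.pull (Or.inl mono_A) (mapsE _) ih
    have h2 := (h1.union (Cov.single (Mon_B (n + 1)))).union (Cov.single (Mon_C (n + 1)))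
    exact h2.mono SE_sub

lemma Cov_univ (n : ℕ) : Cov GG (n + 1) univ (4 * n + 4) := by
  have h1 : Cov GG (n + 1) SA (2 * n + 1) := Cov.pull (Or.inl mono_A) (mapsE _) (Cov_E n)
  have h4 : Cov GG (n + 1) SD (2 * n + 1) := Cov.pull (Or.inr anti_D) (mapsE _) (Cov_E n)
  have h2 := ((h1.union (Cov.single (Mon_B (n + 1)))).union (Cov.single (Mon_C (n + 1)))).union h4
  have h3 : Cov GG (n + 1) univ (2 * n + 1 + 1 + 1 + (2 * n + 1)) := by
    refine h2.mono ?_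
    intro x _
    rcases le_total (x : ℝ) (1 / 2) with h | h
    · rcases le_total (3 * (x : ℝ) * (1 - x)) (1 / 2) with h' | h'
      · exact Or.inl (Or.inl (Or.inl ⟨h, h'⟩))
      · exact Or.inl (Or.inl (Or.inr ⟨h, h'⟩))
    · rcases le_total (3 * (x : ℝ) * (1 - x)) (1 / 2) with h' | h'
      · exact Or.inr ⟨h, h'⟩
      · exact Or.inl (Or.inr ⟨h, h'⟩)
  have e : 2 * n + 1 + 1 + 1 + (2 * n + 1) = 4 * n + 4 := by ring
  rwa [e] at h3

/-- Core of the upper bound: for `n ≥ 1` and `M ≥ 1`, `[0,1]` is covered by at most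
`4 n (n M + 1)` sets on each of which all `G^[k]`, `k < n`, oscillate by less than `1/M`. -/
lemma small_cover (n M : ℕ) (hM : 0 < M) : ∃ t : Finset (Set (Icc (0 : ℝ) 1)),
    t.card ≤ (4 * n + 4) * ((n + 1) * M + 1) ∧ (univ : Set (Icc (0 : ℝ) 1)) ⊆ ⋃₀ (t : Set (Set _)) ∧
      ∀ Q ∈ t, ∀ k < n + 1, ∀ x ∈ Q, ∀ y ∈ Q, dist (GG^[k] x) (GG^[k] y) < 1 / M := by
  classical
  obtain ⟨t, ht1, ht2, ht3⟩ := Cov_univ n
  have h := fun P : {P // P ∈ t} => split_pieces (n + 1) M P.1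
    (fun k x => ⌊(M : ℝ) * ((GG^[k] x : Icc (0 : ℝ) 1) : ℝ)⌋₊)
    (by
      intro k hk x hx
      apply Nat.floor_le_of_le
      have := (GG^[k] x).2.2
      have hM' : (0 : ℝ) ≤ M := by positivity
      nlinarith)
    (by
      intro k hk
      rcases ht3 P.1 P.2 k hk with h | h
      · left
        intro x hx y hy hxy
        exact Nat.floor_mono (mul_le_mul_of_nonneg_left (h hx hy hxy) (by positivity))
      · right
        intro x hx y hy hxy
        exact Nat.floor_mono (mul_le_mul_of_nonneg_left (h hx hy hxy) (by positivity)))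
  choose s hs1 hs2 hs3 using h
  refine ⟨t.attach.biUnion s, ?_, ?_, ?_⟩
  · calc (t.attach.biUnion s).card ≤ t.attach.card * ((n + 1) * M + 1) :=
        Finset.card_biUnion_le_card_mul _ _ _ (fun P _ => hs1 P)
      _ ≤ (4 * n + 4) * ((n + 1) * M + 1) := by
        rw [Finset.card_attach]
        exact Nat.mul_le_mul_right _ ht1
  · intro x _
    obtain ⟨P, hP, hxP⟩ := ht2 (mem_univ x)
    obtain ⟨Q, hQ, hxQ⟩ := hs2 ⟨P, hP⟩ hxP
    exact ⟨Q, by simpa using ⟨P, hP, hQ⟩, hxQ⟩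
  · intro Q hQ k hk x hx y hy
    obtain ⟨P, _, hP⟩ := Finset.mem_biUnion.1 hQ
    have h := (hs3 P Q hP).2 k hk x hx y hy
    have hM' : (0 : ℝ) < M := by positivity
    have a1 := Nat.floor_le (a := (M : ℝ) * ((GG^[k] x : Icc (0 : ℝ) 1) : ℝ))
      (mul_nonneg hM'.le (GG^[k] x).2.1)
    have a2 := Nat.lt_floor_add_one ((M : ℝ) * ((GG^[k] x : Icc (0 : ℝ) 1) : ℝ))
    have a3 := Nat.floor_le (a := (M : ℝ) * ((GG^[k] y : Icc (0 : ℝ) 1) : ℝ))
      (mul_nonneg hM'.le (GG^[k] y).2.1)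
    have a4 := Nat.lt_floor_add_one ((M : ℝ) * ((GG^[k] y : Icc (0 : ℝ) 1) : ℝ))
    rw [← h] at a3 a4
    rw [Subtype.dist_eq, Real.dist_eq, lt_div_iff₀ hM']
    have : |((GG^[k] x : Icc (0 : ℝ) 1) : ℝ) - ((GG^[k] y : Icc (0 : ℝ) 1) : ℝ)| * M =
        |(M : ℝ) * ((GG^[k] x : Icc (0 : ℝ) 1) : ℝ) - M * ((GG^[k] y : Icc (0 : ℝ) 1) : ℝ)| := by
      rw [← mul_sub, abs_mul, abs_of_pos hM', mul_comm]
    rw [this, abs_lt]
    constructor <;> linarith

/-! ### the lower bound -/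

lemma HH_symm (x y : Icc (0 : ℝ) 1) (h : (y : ℝ) = 1 - x) : HH y = HH x := by
  apply Subtype.ext
  rw [HH_coe, HH_coe, h]
  ring

lemma HH_surj (y : Icc (0 : ℝ) 1) : ∃ x : Icc (0 : ℝ) 1, (x : ℝ) ≤ 2 / 5 ∧ HH x = y := by
  -- first: f_3 (f_1 x) = 1/2
  let g : ℝ → ℝ := fun x => 3 * (x * (1 - x)) * (1 - x * (1 - x))
  have hg : Continuous g := by fun_prop
  obtain ⟨s, hs, hs'⟩ : ∃ s ∈ Icc (0:ℝ) (2 / 5), g s = 1 / 2 := by
    have := intermediate_value_Icc (f := g) (by norm_num : (0:ℝ) ≤ 2 / 5) hg.continuousOn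
    apply this
    constructor <;> norm_num [g]
  let F : ℝ → ℝ := fun x => 4 * g x * (1 - g x)
  have hF : Continuous F := by fun_prop
  obtain ⟨x, hx, hx'⟩ : ∃ x ∈ Icc (0:ℝ) s, F x = y := by
    have := intermediate_value_Icc (f := F) hs.1 hF.continuousOn
    apply this
    constructor
    · have : F 0 = 0 := by simp [F, g]
      rw [this]; exact y.2.1
    · have : F s = 1 := by simp only [F, hs']; norm_num
      rw [this]; exact y.2.2
  refine ⟨⟨x, hx.1, by linarith [hx.2, hs.2]⟩, by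
    change x ≤ 2 / 5
    exact hx.2.trans hs.2, ?_⟩
  apply Subtype.ext
  rw [HH_coe, ← hx']

/-- itineraries -/
lemma itin (n : ℕ) : ∀ w : ℕ → Bool, ∃ x : Icc (0 : ℝ) 1, ∀ i < n,
    (w i = false → ((HH^[i] x : Icc (0 : ℝ) 1) : ℝ) ≤ 2 / 5) ∧
    (w i = true → 3 / 5 ≤ ((HH^[i] x : Icc (0 : ℝ) 1) : ℝ)) := by
  induction n with
  | zero => intro w; exact ⟨⟨0, by simp⟩, fun i hi => by omega⟩
  | succ n ih =>
    intro w
    obtain ⟨y, hy⟩ := ih (fun i => w (i + 1))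
    obtain ⟨x, hx, hxy⟩ := HH_surj y
    rcases hw : w 0 with _ | _
    · refine ⟨x, ?_⟩
      intro i hi
      rcases i with _ | i
      · simp only [hw, Function.iterate_zero, id_eq]
        exact ⟨fun _ => hx, fun h => by simp at h⟩
      · rw [Function.iterate_succ_apply, hxy]
        exact hy i (by omega)
    · have hx1 := x.2.1
      have hx2 := x.2.2
      let x' : Icc (0 : ℝ) 1 := ⟨1 - x, by constructor <;> linarith⟩
      have hxy' : HH x' = y := by rw [← hxy]; exact HH_symm x x' rfl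
      refine ⟨x', ?_⟩
      intro i hi
      rcases i with _ | i
      · simp only [hw, Function.iterate_zero, id_eq]
        refine ⟨fun h => by simp at h, fun _ => ?_⟩
        change 3 / 5 ≤ 1 - (x : ℝ)
        linarith
      · rw [Function.iterate_succ_apply, hxy']
        exact hy i (by omega)

end Pool.Agent.R361.Logi
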