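import Mathlib
import Pool.Agent.R361.Logi.Core

set_option autoImplicit false
open Set Filter

namespace Pool.Agent.R361.Logi

section defs

variable {X : Type*}

/-- The common refinement `𝒰 ∨ T⁻¹𝒰 ∨ ⋯ ∨ T^{-(n-1)}𝒰` of the preimages of a cover `𝒰`. -/
def iterJoin (T : X → X) (𝒰 : Set (Set X)) (n : ℕ) : Set (Set X) :=
  {A | ∃ c : ℕ → Set X, (∀ i < n, c i ∈ 𝒰) ∧ A = {x | ∀ i < n, T^[i] x ∈ c i}}

/-- The minimal cardinality `N(𝒲)` of a finite subcover of the cover `𝒲`. -/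
noncomputable def minCard (𝒲 : Set (Set X)) : ℕ :=
  sInf {m | ∃ s : Finset (Set X), (s : Set (Set X)) ⊆ 𝒲 ∧ ⋃₀ (s : Set (Set X)) = univ ∧ s.card = m}

/-- The entropy `h(T, 𝒰) = lim (1/n) log N(𝒰 ∨ ⋯ ∨ T^{-(n-1)}𝒰)` of `T` with respect to `𝒰`. -/
noncomputable def entCover (T : X → X) (𝒰 : Set (Set X)) : EReal :=
  limsup (fun n : ℕ => ((Real.log (minCard (iterJoin T 𝒰 n)) / n : ℝ) : EReal)) atTop

/-- The Adler–Konheim–McAndrew topological entropy: supremum of `h(T, 𝒰)` over all open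
covers `𝒰`. -/
noncomputable def topEntropy [TopologicalSpace X] (T : X → X) : EReal :=
  ⨆ 𝒰 : {𝒰 : Set (Set X) // (∀ U ∈ 𝒰, IsOpen U) ∧ ⋃₀ 𝒰 = univ}, entCover T 𝒰

end defs

section general

variable {X : Type*}

lemma iterJoin_isOpen [TopologicalSpace X] {T : X → X} (hT : Continuous T) {𝒰 : Set (Set X)}
    (hU : ∀ U ∈ 𝒰, IsOpen U) (n : ℕ) : ∀ A ∈ iterJoin T 𝒰 n, IsOpen A := by
  rintro A ⟨c, hc, rfl⟩
  have : {x | ∀ i < n, T^[i] x ∈ c i} = ⋂ i ∈ Finset.range n, T^[i] ⁻¹' (c i) := by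
    ext x; simp
  rw [this]
  apply isOpen_biInter_finset
  intro i hi
  exact (hU _ (hc i (Finset.mem_range.1 hi))).preimage (hT.iterate i)

lemma iterJoin_cover {T : X → X} {𝒰 : Set (Set X)} (hU : ⋃₀ 𝒰 = univ) (n : ℕ) :
    ⋃₀ (iterJoin T 𝒰 n) = univ := by
  apply eq_univ_of_forall
  intro x
  have h : ∀ i : ℕ, ∃ U ∈ 𝒰, T^[i] x ∈ U := fun i => by
    have : T^[i] x ∈ ⋃₀ 𝒰 := by rw [hU]; trivial
    exact this
  choose c hc1 hc2 using h
  exact ⟨_, ⟨c, fun i _ => hc1 i, rfl⟩, fun i _ => hc2 i⟩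

/-- On a compact space the infimum defining `minCard` is attained. -/
lemma exists_minCard [TopologicalSpace X] [CompactSpace X] {𝒲 : Set (Set X)}
    (h1 : ∀ U ∈ 𝒲, IsOpen U) (h2 : ⋃₀ 𝒲 = univ) :
    ∃ s : Finset (Set X), (s : Set (Set X)) ⊆ 𝒲 ∧ ⋃₀ (s : Set (Set X)) = univ ∧
      s.card = minCard 𝒲 := by
  have hne : {m | ∃ s : Finset (Set X), (s : Set (Set X)) ⊆ 𝒲 ∧
      ⋃₀ (s : Set (Set X)) = univ ∧ s.card = m}.Nonempty := by
    obtain ⟨t, ht⟩ := isCompact_univ.elim_finite_subcover (fun U : 𝒲 => U.1) (fun U => h1 _ U.2)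
      (by rw [← sUnion_eq_iUnion, h2])
    classical
    refine ⟨_, t.image (fun U => U.1), ?_, ?_, rfl⟩
    · intro W hW
      obtain ⟨U, _, rfl⟩ := Finset.mem_image.1 (Finset.mem_coe.1 hW)
      exact U.2
    · apply eq_univ_of_forall
      intro x
      obtain ⟨U, hU, hx⟩ := mem_iUnion₂.1 (ht (mem_univ x))
      exact ⟨U.1, by simpa using hU, hx⟩
  exact Nat.sInf_mem hne

lemma minCard_le {𝒲 : Set (Set X)} {t : Finset (Set X)} (h1 : (univ : Set X) ⊆ ⋃₀ (t : Set (Set X)))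
    (h2 : ∀ Q ∈ t, ∃ W ∈ 𝒲, Q ⊆ W) : minCard 𝒲 ≤ t.card := by
  classical
  choose! f hf1 hf2 using h2
  have h3 : minCard 𝒲 ≤ (t.image f).card := by
    apply Nat.sInf_le
    refine ⟨t.image f, ?_, ?_, rfl⟩
    · intro W hW
      obtain ⟨Q, hQ, rfl⟩ := Finset.mem_image.1 (Finset.mem_coe.1 hW)
      exact hf1 Q hQ
    · apply eq_univ_of_forall
      intro x
      obtain ⟨Q, hQ, hx⟩ := h1 (mem_univ x)
      exact ⟨f Q, by simpa using ⟨Q, hQ, rfl⟩, hf2 Q hQ hx⟩
  exact h3.trans Finset.card_image_le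

lemma entCover_nonneg (T : X → X) (𝒰 : Set (Set X)) : 0 ≤ entCover T 𝒰 := by
  unfold entCover
  refine le_limsup_of_frequently_le ?_ (by isBoundedDefault)
  refine Frequently.of_forall ?_
  intro n
  rw [← EReal.coe_zero, EReal.coe_le_coe_iff]
  exact div_nonneg (Real.log_natCast_nonneg _) (Nat.cast_nonneg _)

end general

/-- a polynomial bound has zero exponential growth -/
lemma tendsto_log_poly (M : ℕ) :
    Tendsto (fun n : ℕ => Real.log (((4 * n + 4) * ((n + 1) * M + 1) : ℕ) : ℝ) / n) atTop (nhds 0) := by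
  have h1 : Tendsto (fun n : ℕ => Real.log (n : ℝ) / n) atTop (nhds 0) :=
    (Real.isLittleO_log_id_atTop.comp_tendsto tendsto_natCast_atTop_atTop).tendsto_div_nhds_zero
  have h2 : Tendsto (fun n : ℕ => Real.log ((8 * (2 * M + 1) : ℕ) : ℝ) / n) atTop (nhds 0) :=
    tendsto_const_nhds.div_atTop tendsto_natCast_atTop_atTop
  have h3 := (h1.const_mul 2).add h2
  simp only [mul_zero, add_zero] at h3
  refine squeeze_zero' (Eventually.of_forall fun n =>
    div_nonneg (Real.log_natCast_nonneg _) (Nat.cast_nonneg _)) ?_ h3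
  filter_upwards [eventually_ge_atTop 1] with n hn
  have hn' : (0 : ℝ) < n := by positivity
  have h4 : Real.log (((4 * n + 4) * ((n + 1) * M + 1) : ℕ) : ℝ) ≤
      2 * Real.log n + Real.log ((8 * (2 * M + 1) : ℕ) : ℝ) := by
    rw [show (2 : ℝ) * Real.log n = Real.log ((n : ℝ) ^ 2) by rw [Real.log_pow]; norm_num,
      ← Real.log_mul (by positivity) (by positivity)]
    apply Real.log_le_log (by positivity)
    have : (4 * n + 4) * ((n + 1) * M + 1) ≤ n ^ 2 * (8 * (2 * M + 1)) := by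
      have a1 : 4 * n + 4 ≤ 8 * n := by omega
      have a2 : (n + 1) * M + 1 ≤ n * (2 * M + 1) := by nlinarith
      calc (4 * n + 4) * ((n + 1) * M + 1) ≤ (8 * n) * (n * (2 * M + 1)) := Nat.mul_le_mul a1 a2
        _ = n ^ 2 * (8 * (2 * M + 1)) := by ring
    exact_mod_cast this
  calc Real.log (((4 * n + 4) * ((n + 1) * M + 1) : ℕ) : ℝ) / n
      ≤ (2 * Real.log n + Real.log ((8 * (2 * M + 1) : ℕ) : ℝ)) / n := by gcongr
    _ = 2 * (Real.log n / n) + Real.log ((8 * (2 * M + 1) : ℕ) : ℝ) / n := by ring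

lemma entropy_GG : topEntropy GG = 0 := by
  apply le_antisymm
  · apply iSup_le
    rintro ⟨𝒰, hU1, hU2⟩
    obtain ⟨δ, hδ, hL⟩ := lebesgue_number_lemma_of_metric_sUnion (s := (univ : Set (Icc (0 : ℝ) 1)))
      isCompact_univ hU1 (by rw [hU2])
    obtain ⟨M', hM'⟩ := exists_nat_gt (1 / δ)
    have hM : 0 < M' := by
      have : (0 : ℝ) < M' := lt_trans (by positivity) hM'
      exact_mod_cast this
    have hMδ : (1 : ℝ) / M' < δ := by
      have h0 : (0 : ℝ) < M' := by exact_mod_cast hM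
      rw [div_lt_iff₀ h0]
      rw [div_lt_iff₀ hδ] at hM'
      linarith
    have key : ∀ n : ℕ, minCard (iterJoin GG 𝒰 n) ≤ (4 * n + 4) * ((n + 1) * M' + 1) := by
      intro n
      obtain ⟨t, ht1, ht2, ht3⟩ := small_cover n M' hM
      refine le_trans (minCard_le (t := t) ht2 ?_) ht1
      intro Q hQ
      rcases Q.eq_empty_or_nonempty with rfl | ⟨y, hy⟩
      · have h := iterJoin_cover (T := GG) hU2 n
        obtain ⟨W, hW, _⟩ : (⟨0, by simp⟩ : Icc (0 : ℝ) 1) ∈ ⋃₀ (iterJoin GG 𝒰 n) := by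
          rw [h]; trivial
        exact ⟨W, hW, empty_subset _⟩
      · have h : ∀ i : ℕ, ∃ U ∈ 𝒰, Metric.ball (GG^[i] y) δ ⊆ U := fun i => hL _ (mem_univ _)
        choose c hc1 hc2 using h
        refine ⟨_, ⟨c, fun i _ => hc1 i, rfl⟩, ?_⟩
        intro x hx i hi
        apply hc2 i
        rw [Metric.mem_ball]
        exact (ht3 Q hQ i (by omega) x hx y hy).trans hMδ
    unfold entCover
    have h2 : Tendsto (fun n : ℕ =>
        ((Real.log (((4 * n + 4) * ((n + 1) * M' + 1) : ℕ) : ℝ) / n : ℝ) : EReal)) atTop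
        (nhds ((0 : ℝ) : EReal)) := by
      exact (continuous_coe_real_ereal.tendsto _).comp (tendsto_log_poly M')
    have h3 : limsup (fun n : ℕ => ((Real.log (minCard (iterJoin GG 𝒰 n)) / n : ℝ) : EReal)) atTop ≤
        limsup (fun n : ℕ =>
        ((Real.log (((4 * n + 4) * ((n + 1) * M' + 1) : ℕ) : ℝ) / n : ℝ) : EReal)) atTop := by
      apply limsup_le_limsup
      · refine Eventually.of_forall fun n => ?_
        rw [EReal.coe_le_coe_iff]
        rcases Nat.eq_zero_or_pos (minCard (iterJoin GG 𝒰 n)) with h0 | h0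
        · rw [h0]
          simp only [Nat.cast_zero, Real.log_zero, zero_div]
          exact div_nonneg (Real.log_natCast_nonneg _) (Nat.cast_nonneg _)
        · gcongr
          exact key n
      · isBoundedDefault
      · isBoundedDefault
    rw [h2.limsup_eq] at h3
    exact h3
  · have h : (∀ U ∈ ({univ} : Set (Set (Icc (0 : ℝ) 1))), IsOpen U) ∧
        ⋃₀ ({univ} : Set (Set (Icc (0 : ℝ) 1))) = univ := by simp
    exact le_iSup_of_le ⟨{univ}, h⟩ (entCover_nonneg _ _)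

/-- the two-element cover -/
def VV : Bool → Set (Icc (0 : ℝ) 1)
  | false => {x | (x : ℝ) < 3 / 5}
  | true => {x | 2 / 5 < (x : ℝ)}

lemma sep {n : ℕ} {x : (Fin n → Bool) → Icc (0 : ℝ) 1} (hx : ∀ (w : Fin n → Bool) (i : Fin n),
      (w i = false → ((HH^[i] (x w) : Icc (0 : ℝ) 1) : ℝ) ≤ 2 / 5) ∧
      (w i = true → 3 / 5 ≤ ((HH^[i] (x w) : Icc (0 : ℝ) 1) : ℝ))) (i : Fin n) (b : Bool)
    (w : Fin n → Bool) (h : HH^[i] (x w) ∈ VV b) : w i = b := by
  have e := hx w i
  cases b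
  · by_contra hne
    have h1 := e.2 (by simpa using hne)
    have h2 : ((HH^[i] (x w) : Icc (0 : ℝ) 1) : ℝ) < 3 / 5 := h
    linarith
  · by_contra hne
    have h1 := e.1 (by simpa using hne)
    have h2 : 2 / 5 < ((HH^[i] (x w) : Icc (0 : ℝ) 1) : ℝ) := h
    linarith

lemma entropy_HH : ((Real.log 2 : ℝ) : EReal) ≤ topEntropy HH := by
  classical
  have hcont : Continuous HH :=
    (continuous_logistic _).comp ((continuous_logistic _).comp (continuous_logistic _))
  have hU1 : ∀ U ∈ range VV, IsOpen U := by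
    rintro _ ⟨b, rfl⟩
    cases b
    · exact isOpen_lt continuous_subtype_val continuous_const
    · exact isOpen_lt continuous_const continuous_subtype_val
  have hU2 : ⋃₀ (range VV) = univ := by
    apply eq_univ_of_forall
    intro x
    rcases lt_or_ge (x : ℝ) (3 / 5) with h | h
    · exact ⟨VV false, ⟨false, rfl⟩, h⟩
    · exact ⟨VV true, ⟨true, rfl⟩, by change 2 / 5 < (x : ℝ); linarith⟩
  refine le_iSup_of_le ⟨range VV, hU1, hU2⟩ ?_
  have key : ∀ n : ℕ, 2 ^ n ≤ minCard (iterJoin HH (range VV) n) := by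
    intro n
    obtain ⟨s, hs1, hs2, hs3⟩ := exists_minCard (iterJoin_isOpen hcont hU1 n)
      (iterJoin_cover (T := HH) hU2 n)
    rw [← hs3]
    have hx : ∀ w : Fin n → Bool, ∃ x : Icc (0 : ℝ) 1, ∀ i : Fin n,
        (w i = false → ((HH^[i] x : Icc (0 : ℝ) 1) : ℝ) ≤ 2 / 5) ∧
        (w i = true → 3 / 5 ≤ ((HH^[i] x : Icc (0 : ℝ) 1) : ℝ)) := by
      intro w
      obtain ⟨x, hx⟩ := itin n (fun i => if h : i < n then w ⟨i, h⟩ else false)
      refine ⟨x, fun i => ?_⟩
      have := hx i i.2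
      simpa [i.2] using this
    choose x hx using hx
    have hA : ∀ w : Fin n → Bool, ∃ A ∈ s, x w ∈ A := by
      intro w
      have : x w ∈ ⋃₀ (s : Set (Set (Icc (0 : ℝ) 1))) := by rw [hs2]; trivial
      simpa using this
    choose A hA1 hA2 using hA
    have hinj : Function.Injective (fun w : Fin n → Bool => (⟨A w, hA1 w⟩ : s)) := by
      intro w w' hww
      have hww' : A w = A w' := by simpa using hww
      obtain ⟨c, hc, hAc⟩ := hs1 (hA1 w)
      ext i
      have h1 : HH^[i] (x w) ∈ c i := by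
        have := hA2 w
        rw [hAc] at this
        exact this i i.2
      have h2 : HH^[i] (x w') ∈ c i := by
        have := hA2 w'
        rw [← hww', hAc] at this
        exact this i i.2
      obtain ⟨b, hb⟩ := hc i i.2
      rw [← hb] at h1 h2
      rw [sep hx i b w h1, sep hx i b w' h2]
    have := Fintype.card_le_of_injective _ hinj
    simpa using this
  unfold entCover
  refine le_limsup_of_frequently_le ?_ (by isBoundedDefault)
  apply Eventually.frequently
  filter_upwards [eventually_ge_atTop 1] with n hn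
  rw [EReal.coe_le_coe_iff]
  have hn' : (0 : ℝ) < n := by positivity
  rw [le_div_iff₀ hn']
  calc Real.log 2 * n = Real.log ((2 : ℝ) ^ n) := by rw [Real.log_pow]; ring
    _ ≤ Real.log (minCard (iterJoin HH (range VV) n)) := by
      apply Real.log_le_log (by positivity)
      exact_mod_cast key n

end Pool.Agent.R361.Logi
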